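import Pool.Agent.helper41.HFE.Spec

/-!
# Row `hfe:NUT` of project HFE (MP_3221a1_ag)
-/

set_option autoImplicit false

open Polynomial Module Pool.Agent.HFN

namespace Pool.Agent.HFE

noncomputable section

/-- one of the two bidegrees is `1`, the other is at least `2`: too large -/
theorem NUT_aux (i j r b : ℕ) (h : 2 * r ≤ 2 * i + j + 1) (hb : 2 ≤ b) (hbj : 2 * b ≤ j + 1) :
    2 * r < b * (i + 1) + (j + 2 - b) := by
  obtain ⟨c, rfl⟩ : ∃ c, b = c + 2 := ⟨b - 2, by omega⟩
  obtain ⟨d, rfl⟩ : ∃ d, j = d + (c + 2) := ⟨j - (c + 2), by omega⟩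
  have e : d + (c + 2) + 2 - (c + 2) = d + 2 := by omega
  rw [e]
  have h1 : (c + 2) * (i + 1) = c * i + c + 2 * i + 2 := by ring
  rw [h1]
  have h2 : 0 ≤ c * i := Nat.zero_le _
  omega

/-- **NUT** -/
theorem NUT : NUT_stmt := by
  intro r i j hr hT
  obtain ⟨hi, hj, h1, h2⟩ := hT
  refine ⟨by omega, by omega, ?_, ?_, ?_⟩
  · have e : (i + 1) * (j + 2) = i * j + 2 * i + j + 2 := by ring
    rw [e]
    have := Nat.zero_le (i * j)
    omega
  · have e : (j + 1) * (i + 2) = i * j + 2 * j + i + 2 := by ring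
    rw [e]
    have := Nat.zero_le (i * j)
    omega
  · intro a b hcd hab
    obtain ⟨ha, hb, hc⟩ := hcd
    by_cases ha0 : a = 0
    · exact Or.inl ha0
    by_cases hb0 : b = 0
    · exact Or.inr (Or.inl hb0)
    refine Or.inr (Or.inr ?_)
    rcases hab with h | h
    · have ha1 : a = 1 := by omega
      subst ha1
      refine ⟨rfl, ?_⟩
      by_contra hb1
      have h3 := NUT_aux i j r b h1 (by omega) hb
      have e : i + 2 - 1 = i + 1 := by omega
      rw [e, one_mul] at hc
      omega
    · have hb1 : b = 1 := by omega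
      subst hb1
      refine ⟨?_, rfl⟩
      by_contra ha1
      have h3 := NUT_aux j i r a (by omega) (by omega) ha
      have e : j + 2 - 1 = j + 1 := by omega
      rw [e, one_mul] at hc
      omega

end

end Pool.Agent.HFE
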