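import Pool.Agent.helper41.HFE.SpecK

/-!
# Project HFE, row MNK: the assembly of block K
-/

set_option autoImplicit false

open Polynomial Module Pool.Agent.HFN

namespace Pool.Agent.HFE

noncomputable section

open Pool.Agent.helper29.JZ in
lemma MNK_tr (hTRA : TRA_stmt) {h h' : ℕ} (M W : Finset (Fin h × Fin h')) (κ a r : ℕ) (hD : DatK M W κ a 1 r) :
    DatK (tr M) (tr W) κ 1 a r := by
  obtain ⟨hM, hc, hro, ha, _, _, hk, hWM, hWr, hWc⟩ := hD
  obtain ⟨t1, t2, t3, -⟩ := hTRA h h' M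
  obtain ⟨-, u2, u3, -⟩ := hTRA h h' W
  refine ⟨?_, ?_, ?_, le_refl 1, ha, Or.inl rfl, ?_, ?_, ?_, ?_⟩
  · rw [t1, hM]
  · intro k
    rw [t2]
    exact hro k
  · intro m
    rw [t3]
    exact hc m
  · rw [Nat.mul_comm 1 a]
    exact hk
  · unfold tr
    exact Finset.image_subset_image hWM
  · intro m
    rw [u3]
    exact hWc m
  · intro k
    rw [u2]
    exact hWr k

lemma MNK_Uk {κ r i j : ℕ} (h : Uk κ r i j) : Uk κ r j i := by
  obtain ⟨h1, h2, h3, h4, h5⟩ := h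
  exact ⟨h2, h1, by omega, by omega, by omega⟩

theorem MNK : MNK_stmt := by
  classical
  intro hAFF hDEF hSWB hTRA hNec hSuf κ r hκ hr
  have hr6 : 6 ≤ r := by nlinarith
  constructor
  · intro Y hY
    obtain ⟨Z, hZ1, hZ2⟩ := hAFF.1 Y
    have hZr : Z.card = r := by rw [hZ1, hY]
    obtain ⟨h, h', M, W, a, b, hD, hdf⟩ := hNec κ Z hκ (by omega)
    rw [hZr] at hD
    refine ⟨h, h', M, W, a, b, hD, ?_⟩
    intro i j hO
    have h1 := hdf i j (by rw [hZr]; exact hO)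
    have h2 := hDEF Z i j
    have h3 := hZ2 i j
    rw [h1, hZr] at h2
    omega
  · intro h h' M W a b hD
    have key : ∃ Z : Finset (ℂ × ℂ), Z.card = r ∧ ∀ i j : ℕ, Uk κ r i j → df Z i j = Df M W a b i j := by
      rcases hD.2.2.2.2.2.1 with ha | hb
      · subst ha
        exact hSuf κ h h' M W b r hκ hr hD
      · subst hb
        obtain ⟨Z', hZ'1, hZ'2⟩ := hSuf κ h' h _ _ a r hκ hr (MNK_tr hTRA M W κ a r hD)
        refine ⟨Z'.image Prod.swap, ?_, ?_⟩
        · rw [Finset.card_image_of_injective _ Prod.swap_injective, hZ'1]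
        · intro i j hO
          rw [hSWB.2.1 Z' j i, hZ'2 j i (MNK_Uk hO)]
          exact hSWB.2.2.2.1 h h' M W a 1 i j
    obtain ⟨Z, hZr, hdf⟩ := key
    obtain ⟨Y, hY1, hY2⟩ := hAFF.2 Z
    refine ⟨Y, by rw [hY1, hZr], ?_⟩
    intro i j hO
    have h1 := hdf i j hO
    have h2 := hDEF Z i j
    have h3 := hY2 i j
    rw [h1, hZr] at h2
    omega

end

end Pool.Agent.HFE
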